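import Mathlib

namespace Pool.Agent.Results.MP_904b92_lc.Exists

/-- structures with universe `Fin n` for the vocabulary with one binary relation symbol -/
def Str (n : ℕ) : Type := Fin n → Fin n → Prop

/-- A class, given by its members with universe `Fin n` for each `n`, closed under isomorphism
and under nonempty induced substructures: closed under pulling back along injections. -/
def Hereditary (C : ∀ n, Set (Str n)) : Prop :=
  ∀ (m n : ℕ) (e : Fin m ↪ Fin n), 0 < m → ∀ R ∈ C n, (fun x y => R (e x) (e y) : Str m) ∈ C m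

/-- MC-finite integer sequences -/
def MCFinite (s : ℕ → ℤ) : Prop :=
  ∀ m : ℕ, 1 ≤ m → ∃ r p : ℕ, 1 ≤ r ∧ 1 ≤ p ∧ ∃ a : Fin p → ℤ, ∀ n, r ≤ n →
    s (n + p) ≡ ∑ i : Fin p, a i * s (n + i) [ZMOD m]

instance (n : ℕ) : Finite (Str n) := by unfold Str; infer_instance

def N (k : ℕ) : ℕ := ∑ i : Fin (k + 1), 2 ^ (i : ℕ)

theorem N_eq (k : ℕ) : N k + 1 = 2 ^ (k + 1) := by
  unfold N
  induction k with
  | zero => simp
  | succ k ih =>
    rw [Fin.sum_univ_castSucc]
    simp only [Fin.val_castSucc, Fin.val_last]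
    rw [pow_succ 2 (k + 1)]
    omega

theorem N_mono : StrictMono N := by
  refine strictMono_nat_of_lt_succ fun k => ?_
  have h1 := N_eq k
  have h2 := N_eq (k + 1)
  rw [pow_succ] at h2
  have : 0 < 2 ^ (k + 1) := by positivity
  omega

noncomputable def eq (k : ℕ) : Fin (N k) ≃ Σ i : Fin (k + 1), Fin (2 ^ (i : ℕ)) :=
  (Fintype.equivFinOfCardEq (by simp [N])).symm

noncomputable def bl (k : ℕ) (x : Fin (N k)) : Fin (k + 1) := (eq k x).1

theorem bl_card (k : ℕ) (i : Fin (k + 1)) : Fintype.card {a // bl k a = i} = 2 ^ (i : ℕ) := by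
  have e : {a // bl k a = i} ≃ Fin (2 ^ (i : ℕ)) :=
    ((eq k).subtypeEquiv (fun a => Iff.rfl)).trans
      (Equiv.sigmaSubtype (β := fun i : Fin (k + 1) => Fin (2 ^ (i : ℕ))) i)
  rw [Fintype.card_congr e, Fintype.card_fin]

theorem bl_surj (k : ℕ) (i : Fin (k + 1)) : ∃ x, bl k x = i :=
  ⟨(eq k).symm ⟨i, ⟨0, by positivity⟩⟩, by simp [bl]⟩

def B (k : ℕ) : Str (N k) := fun x y => bl k y = bl k x + 1

def Emb (k : ℕ) {n : ℕ} (R : Str n) : Prop :=
  ∃ e : Fin (N k) ↪ Fin n, ∀ x y, R (e x) (e y) ↔ B k x y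

theorem not_emb {j k : ℕ} (h : j < k) : ¬ Emb j (B k) := by
  rintro ⟨e, he⟩
  choose v hv using bl_surj j
  have key : ∀ t : ℕ, bl k (e (v (Fin.ofNat (j + 1) t))) =
      bl k (e (v 0)) + Fin.ofNat (k + 1) t := by
    intro t
    induction t with
    | zero => simp
    | succ t ih =>
      have h1 : B j (v (Fin.ofNat (j + 1) t)) (v (Fin.ofNat (j + 1) (t + 1))) := by
        show bl j _ = bl j _ + 1
        rw [hv, hv]
        ext
        simp [Fin.val_add]
      have h2 : bl k _ = bl k _ + 1 := (he _ _).2 h1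
      rw [h2, ih, add_assoc]
      congr 1
      ext
      simp [Fin.val_add]
  have h3 := key (j + 1)
  have h4 : Fin.ofNat (j + 1) (j + 1) = 0 := by ext; simp
  rw [h4, left_eq_add] at h3
  have h5 := congrArg Fin.val h3
  simp only [Fin.val_ofNat, Fin.val_zero] at h5
  rw [Nat.mod_eq_of_lt (by omega)] at h5
  omega

theorem odd_choose (m r : ℕ) (h : r < 2 ^ m) : Odd ((2 ^ m - 1).choose r) := by
  induction r with
  | zero => simp
  | succ r ih =>
    have h1 := ih (by omega)
    have h2 : 2 ∣ (2 ^ m).choose (r + 1) :=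
      Nat.Prime.dvd_choose_pow Nat.prime_two (by omega) (by omega)
    have h3 : (2 ^ m).choose (r + 1) = (2 ^ m - 1).choose r + (2 ^ m - 1).choose (r + 1) := by
      rw [← Nat.choose_succ_succ', Nat.sub_add_cancel (by omega)]
    rw [Nat.odd_iff] at h1 ⊢
    omega

theorem fact_eq (k : ℕ) :
    ∃ c, Odd c ∧ (N k).factorial = c * ∏ i : Fin (k + 1), (2 ^ (i : ℕ)).factorial := by
  induction k with
  | zero => exact ⟨1, odd_one, by simp [N]⟩
  | succ k ih =>
    obtain ⟨c, hc, e⟩ := ih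
    have h1 := N_eq k
    have h2 := N_eq (k + 1)
    have h3 : N (k + 1) = 2 ^ (k + 1 + 1) - 1 := by omega
    have h4 : N (k + 1) - 2 ^ (k + 1) = N k := by rw [pow_succ] at h2; omega
    have h5 : 2 ^ (k + 1) ≤ N (k + 1) := by rw [pow_succ] at h2; omega
    refine ⟨(N (k + 1)).choose (2 ^ (k + 1)) * c, Odd.mul ?_ hc, ?_⟩
    · rw [h3]
      exact odd_choose _ _ (by omega)
    · rw [Fin.prod_univ_castSucc, ← Nat.choose_mul_factorial_mul_factorial h5, h4, e]
      simp only [Fin.val_castSucc, Fin.val_last]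
      ring

instance act (n : ℕ) : MulAction (Equiv.Perm (Fin n)) (Str n) where
  smul g R := fun x y => R (g⁻¹ x) (g⁻¹ y)
  one_smul _ := rfl
  mul_smul _ _ _ := rfl

theorem copies_odd (k : ℕ) : Odd ({R : Str (N k) | Emb k R}.ncard) := by
  have h1 : {R : Str (N k) | Emb k R} = MulAction.orbit (Equiv.Perm (Fin (N k))) (B k) := by
    ext R
    constructor
    · rintro ⟨e, he⟩
      let g : Equiv.Perm (Fin (N k)) :=
        Equiv.ofBijective e (Finite.injective_iff_bijective.1 e.injective)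
      refine ⟨g, ?_⟩
      funext x y
      show B k (g⁻¹ x) (g⁻¹ y) = R x y
      rw [← he]
      show R (g (g⁻¹ x)) (g (g⁻¹ y)) = R x y
      simp
    · rintro ⟨g, rfl⟩
      refine ⟨g.toEmbedding, fun x y => ?_⟩
      show B k (g⁻¹ (g x)) (g⁻¹ (g y)) ↔ _
      simp
  let K : Subgroup (Equiv.Perm (Fin (N k))) :=
    { carrier := {g | bl k ∘ g = bl k}
      mul_mem' := fun {a b} ha hb => by
        show (bl k ∘ a) ∘ b = bl k
        rw [ha, hb]
      one_mem' := rfl
      inv_mem' := fun {a} ha => by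
        funext x
        have := congrFun ha (a⁻¹ x)
        simpa using this.symm }
  have hK : K ≤ MulAction.stabilizer _ (B k) := by
    intro g hg
    have hg' : ∀ x, bl k (g⁻¹ x) = bl k x := fun x => congrFun (K.inv_mem hg) x
    funext x y
    show (bl k (g⁻¹ y) = bl k (g⁻¹ x) + 1) = _
    rw [hg', hg']
    rfl
  have hc : Nat.card K = ∏ i : Fin (k + 1), (2 ^ (i : ℕ)).factorial := by
    have := DomMulAct.stabilizer_card (bl k)
    simp only [bl_card] at this
    rw [← this, ← Nat.card_eq_fintype_card]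
    rfl
  obtain ⟨c, hc1, hc2⟩ := fact_eq k
  have h3 := K.index_mul_card
  rw [hc, Nat.card_eq_fintype_card, Fintype.card_perm, Fintype.card_fin, hc2] at h3
  have h4 : K.index = c := Nat.eq_of_mul_eq_mul_right
    (Finset.prod_pos fun i _ => Nat.factorial_pos _) h3
  rw [h1, ← MulAction.index_stabilizer]
  exact Odd.of_dvd_nat hc1 (h4 ▸ Subgroup.index_dvd_of_le hK)

def Cl (S : Set ℕ) (n : ℕ) : Set (Str n) := {R | ∀ k ∈ S, ¬ Emb k R}

theorem cl_her (S : Set ℕ) : Hereditary (Cl S) := by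
  rintro m n e - R hR k hk ⟨f, hf⟩
  exact hR k hk ⟨f.trans e, hf⟩

theorem emb_le {j n : ℕ} {R : Str n} (h : Emb j R) : N j ≤ n := by
  obtain ⟨e, -⟩ := h
  simpa using Fintype.card_le_of_embedding e

theorem step {S T : Set ℕ} {k : ℕ} (h : ∀ j < k, (j ∈ S ↔ j ∈ T)) (hS : k ∈ S) (hT : k ∉ T) :
    (((Cl T (N k)).ncard : ℤ) : ZMod 2) ≠ (((Cl S (N k)).ncard : ℤ) : ZMod 2) := by
  have h1 : Cl T (N k) = Cl S (N k) ∪ {R | Emb k R} := by
    ext R
    constructor
    · intro hR
      by_cases hk : Emb k R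
      · exact Or.inr hk
      · left
        intro j hj hjR
        have h2 : j ≤ k := N_mono.le_iff_le.1 (emb_le hjR)
        rcases h2.lt_or_eq with h3 | rfl
        · exact hR j ((h j h3).1 hj) hjR
        · exact hk hjR
    · intro hR j hj hjR
      have h2 : j ≤ k := N_mono.le_iff_le.1 (emb_le hjR)
      have h3 : j < k := lt_of_le_of_ne h2 (by rintro rfl; exact hT hj)
      rcases hR with hR | ⟨e, he⟩
      · exact hR j ((h j h3).2 hj) hjR
      · obtain ⟨f, hf⟩ := hjR
        let g : Equiv.Perm (Fin (N k)) :=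
          Equiv.ofBijective e (Finite.injective_iff_bijective.1 e.injective)
        refine not_emb h3 ⟨f.trans g.symm.toEmbedding, fun x y => ?_⟩
        rw [← hf, ← he]
        show R (g (g.symm (f x))) (g (g.symm (f y))) ↔ _
        simp
  have h2 : Disjoint (Cl S (N k)) {R | Emb k R} :=
    Set.disjoint_left.2 fun R hR hk => hR k hS hk
  rw [h1, Set.ncard_union_eq h2]
  obtain ⟨c, hc⟩ := copies_odd k
  rw [hc]
  push_cast
  rw [show (2 : ZMod 2) = 0 from rfl]
  simp

theorem par_inj : Function.Injective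
    (fun (S : Set ℕ) (n : ℕ) => (((Cl S n).ncard : ℤ) : ZMod 2)) := by
  classical
  intro S T hST
  by_contra hne
  have hex : ∃ k, ¬ (k ∈ S ↔ k ∈ T) := by
    by_contra hc
    push Not at hc
    exact hne (Set.ext hc)
  have h1 := Nat.find_spec hex
  have h2 : ∀ j < Nat.find hex, (j ∈ S ↔ j ∈ T) := fun j hj => by
    simpa using Nat.find_min hex hj
  by_cases hS : Nat.find hex ∈ S
  · exact step h2 hS (fun hT => h1 ⟨fun _ => hT, fun _ => hS⟩) (congrFun hST _).symm
  · have hT : Nat.find hex ∈ T := by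
      by_contra hT
      exact h1 ⟨fun h => absurd h hS, fun h => absurd h hT⟩
    exact step (fun j hj => (h2 j hj).symm) hT hS (congrFun hST _)

def Rec (d : Σ r : ℕ, Σ p : ℕ, (Fin p → ℤ) × (Fin (r + p) → ZMod 2)) : Set (ℕ → ZMod 2) :=
  {t | (∀ n, d.1 ≤ n → t (n + d.2.1) = ∑ i : Fin d.2.1, (d.2.2.1 i : ZMod 2) * t (n + i)) ∧
    ∀ i : Fin (d.1 + d.2.1), t i = d.2.2.2 i}

theorem rec_sub (d) : (Rec d).Subsingleton := by
  obtain ⟨r, p, a, v⟩ := d
  rintro t ⟨h1, h2⟩ u ⟨h3, h4⟩
  funext n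
  induction n using Nat.strong_induction_on with
  | _ n ih =>
    by_cases hn : n < r + p
    · exact (h2 ⟨n, hn⟩).trans (h4 ⟨n, hn⟩).symm
    · obtain ⟨m, rfl⟩ : ∃ m, n = m + p := ⟨n - p, by omega⟩
      have e1 := h1 m (by dsimp only; omega)
      have e2 := h3 m (by dsimp only; omega)
      dsimp only at e1 e2
      rw [e1, e2]
      exact Finset.sum_congr rfl fun i _ => by rw [ih (m + i) (by have := i.2; omega)]

theorem result : ∃ C : ∀ n, Set (Str n), Hereditary C ∧
    ¬ MCFinite (fun n => ((C n).ncard : ℤ)) := by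
  by_contra hc
  push Not at hc
  have h1 : (⋃ d, Rec d).Countable := Set.countable_iUnion fun d => (rec_sub d).countable
  have h2 : ∀ S : Set ℕ, (fun n : ℕ => (((Cl S n).ncard : ℤ) : ZMod 2)) ∈ ⋃ d, Rec d := by
    intro S
    obtain ⟨r, p, -, -, a, ha⟩ := hc _ (cl_her S) 2 (by norm_num)
    refine Set.mem_iUnion.2 ⟨⟨r, p, a, fun i => (((Cl S i).ncard : ℤ) : ZMod 2)⟩,
      fun n hn => ?_, fun i => rfl⟩
    have := (ZMod.intCast_eq_intCast_iff _ _ 2).2 (ha n hn)
    dsimp only
    rw [this]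
    push_cast
    rfl
  have : Countable (⋃ d, Rec d) := h1
  have h3 : Function.Injective (fun S : Set ℕ => (⟨_, h2 S⟩ : (⋃ d, Rec d))) :=
    fun S T h => par_inj (congrArg Subtype.val h)
  have : Countable (Set ℕ) := h3.countable
  exact Function.cantor_surjective _ (exists_surjective_nat (Set ℕ)).choose_spec

end Pool.Agent.Results.MP_904b92_lc.Exists
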